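import Mathlib

/-!
# Binary sum of digits modulo two, and digit-separated sums
-/

set_option autoImplicit false

namespace Pool.Agent.Lib.MP_8fac0f_nt

open Finset Polynomial

/-- The binary sum of digits of `n` as an element of `ZMod 2`. -/
def T (n : ℕ) : ZMod 2 := (((Nat.digits 2 n).sum : ℕ) : ZMod 2)

theorem T_zero : T 0 = 0 := by simp [T]

theorem T_two_mul_add (b n : ℕ) (hb : b < 2) : T (2 * n + b) = T n + b := by
  unfold T
  rcases Nat.eq_zero_or_pos n with rfl | hn
  · interval_cases b <;> simp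
  · have h : Nat.digits 2 (b + 2 * n) = b :: Nat.digits 2 n :=
      Nat.digits_add 2 (by norm_num) b n hb (Or.inr hn.ne')
    rw [add_comm (2 * n) b, h, List.sum_cons]
    push_cast
    ring

theorem T_two_mul (n : ℕ) : T (2 * n) = T n := by
  have := T_two_mul_add 0 n (by norm_num)
  simpa using this

theorem T_one : T 1 = 1 := by
  have := T_two_mul_add 1 0 (by norm_num)
  simpa [T_zero] using this

theorem T_add (a m r : ℕ) (h : r < 2 ^ a) : T (2 ^ a * m + r) = T m + T r := by
  induction a generalizing r with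
  | zero =>
    have : r = 0 := by simpa using h
    subst this
    simp [T_zero]
  | succ a ih =>
    obtain ⟨r', b, hb, hr⟩ : ∃ r' b, b < 2 ∧ r = 2 * r' + b :=
      ⟨r / 2, r % 2, Nat.mod_lt _ (by norm_num), by omega⟩
    have hr' : r' < 2 ^ a := by rw [pow_succ] at h; omega
    have e : 2 ^ (a + 1) * m + r = 2 * (2 ^ a * m + r') + b := by rw [hr]; ring
    rw [e, T_two_mul_add b _ hb, ih r' hr', hr, T_two_mul_add b _ hb]
    ring

theorem T_pow_mul (a m : ℕ) : T (2 ^ a * m) = T m := by
  have := T_add a m 0 (pow_pos (by norm_num) a)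
  simpa [T_zero] using this

/-- `T` of a number `≡ 1 (mod 4)` does not change when `1` is added. -/
theorem T_succ_of_mod (m : ℕ) (h : m % 4 = 1) : T (m + 1) = T m := by
  obtain ⟨k, rfl⟩ : ∃ k, m = 4 * k + 1 := ⟨m / 4, by omega⟩
  have e1 : 4 * k + 1 + 1 = 2 * (2 * k + 1) + 0 := by ring
  have e2 : 4 * k + 1 = 2 * (2 * k) + 1 := by ring
  rw [e1, T_two_mul_add 0 _ (by norm_num), T_two_mul_add 1 _ (by norm_num), e2,
    T_two_mul_add 1 _ (by norm_num), T_two_mul]
  push_cast
  ring

/-- Digit-separated sums. -/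
theorem sep_lt (a : ℕ) (f : ℕ → ℕ) (n : ℕ) (hf : ∀ l, l < n → f l < 2 ^ a) :
    ∑ l ∈ Finset.range n, f l * 2 ^ (a * l) < 2 ^ (a * n) := by
  induction n with
  | zero => simp
  | succ n ih =>
    rw [Finset.sum_range_succ]
    have h1 := ih (fun l hl => hf l (by omega))
    have h2 := hf n (by omega)
    have e : 2 ^ (a * (n + 1)) = 2 ^ a * 2 ^ (a * n) := by rw [← pow_add]; ring_nf
    rw [e]
    have h3 : f n + 1 ≤ 2 ^ a := h2
    have h4 := Nat.mul_le_mul_right (2 ^ (a * n)) h3
    rw [Nat.add_mul, one_mul] at h4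
    omega

theorem T_sep (a : ℕ) (f : ℕ → ℕ) (n : ℕ) (hf : ∀ l, l < n → f l < 2 ^ a) :
    T (∑ l ∈ Finset.range n, f l * 2 ^ (a * l)) = ∑ l ∈ Finset.range n, T (f l) := by
  induction n with
  | zero => simp [T_zero]
  | succ n ih =>
    rw [Finset.sum_range_succ, Finset.sum_range_succ]
    have h1 := sep_lt a f n (fun l hl => hf l (by omega))
    have e : ∑ l ∈ Finset.range n, f l * 2 ^ (a * l) + f n * 2 ^ (a * n)
        = 2 ^ (a * n) * f n + ∑ l ∈ Finset.range n, f l * 2 ^ (a * l) := by ring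
    rw [e, T_add _ _ _ h1, ih (fun l hl => hf l (by omega))]
    ring

/-- symmetric double sums in characteristic two -/
theorem sum_symm (f : ℕ → ℕ → ZMod 2) (hf : ∀ l m, f l m = f m l) (n : ℕ) :
    ∑ l ∈ Finset.range n, ∑ m ∈ Finset.range n, f l m = ∑ l ∈ Finset.range n, f l l := by
  induction n with
  | zero => simp
  | succ n ih =>
    rw [Finset.sum_range_succ, Finset.sum_range_succ _ n]
    have e1 : ∑ l ∈ Finset.range n, ∑ m ∈ Finset.range (n + 1), f l m
        = ∑ l ∈ Finset.range n, ∑ m ∈ Finset.range n, f l m + ∑ l ∈ Finset.range n, f l n := by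
      rw [← Finset.sum_add_distrib]
      apply Finset.sum_congr rfl
      intro l _
      rw [Finset.sum_range_succ]
    have e2 : ∑ m ∈ Finset.range n, f n m = ∑ m ∈ Finset.range n, f m n :=
      Finset.sum_congr rfl fun m _ => hf n m
    rw [e1, ih, Finset.sum_range_succ, e2]
    have e3 : ∑ l ∈ Finset.range n, f l n + ∑ l ∈ Finset.range n, f l n = 0 := CharTwo.add_self_eq_zero _
    linear_combination e3

end Pool.Agent.Lib.MP_8fac0f_nt
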