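import Pool.Agent.Lib.MP_8fac0f_nt.Words

/-!
# From polynomials over the integers to polynomials with natural coefficients
-/

set_option autoImplicit false

namespace Pool.Agent.Lib.MP_8fac0f_nt

open Finset Polynomial

theorem eval_ge_leading (P : ℤ[X]) (hP : ∀ i, 0 ≤ P.coeff i) (z : ℤ) (hz : 1 ≤ z) :
    P.leadingCoeff ≤ P.eval z := by
  rw [eval_eq_sum_range]
  have h1 : P.coeff P.natDegree * z ^ P.natDegree
      ≤ ∑ i ∈ Finset.range (P.natDegree + 1), P.coeff i * z ^ i :=
    Finset.single_le_sum (f := fun i => P.coeff i * z ^ i)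
      (fun i _ => mul_nonneg (hP i) (by positivity)) (Finset.mem_range.mpr (Nat.lt_succ_self _))
  refine le_trans ?_ h1
  have h2 : 1 ≤ z ^ P.natDegree := one_le_pow₀ hz
  have h3 := hP P.natDegree
  change P.coeff P.natDegree ≤ _
  nlinarith

/-- After a large translation all coefficients of a polynomial with positive leading coefficient
are nonnegative. -/
theorem taylor_nonneg (n : ℕ) : ∀ P : ℤ[X], P.natDegree ≤ n → 0 < P.leadingCoeff →
    ∃ v0 : ℕ, ∀ v : ℕ, v0 ≤ v → ∀ i, 0 ≤ (taylor (v : ℤ) P).coeff i := by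
  induction n with
  | zero =>
    intro P hP hlc
    obtain ⟨a, ha⟩ : ∃ a, P = C a := ⟨_, eq_C_of_natDegree_le_zero hP⟩
    refine ⟨0, fun v _ i => ?_⟩
    rw [ha, taylor_C, coeff_C]
    rw [ha, leadingCoeff_C] at hlc
    split_ifs <;> omega
  | succ n ih =>
    intro P hP hlc
    by_cases hdeg : P.natDegree = 0
    · obtain ⟨a, ha⟩ : ∃ a, P = C a := ⟨_, eq_C_of_natDegree_le_zero hdeg.le⟩
      refine ⟨0, fun v _ i => ?_⟩
      rw [ha, taylor_C, coeff_C]
      rw [ha, leadingCoeff_C] at hlc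
      split_ifs <;> omega
    · set P1 := P.divX with hP1
      have hPe : P1 * X + C (P.coeff 0) = P := divX_mul_X_add P
      have hdeg1 : P1.natDegree = P.natDegree - 1 := natDegree_divX_eq_natDegree_tsub_one
      have hlc1 : P1.leadingCoeff = P.leadingCoeff := by
        rw [leadingCoeff, leadingCoeff, hdeg1, hP1, coeff_divX]
        congr 1; omega
      obtain ⟨v0, hv0⟩ := ih P1 (by omega) (by rw [hlc1]; exact hlc)
      refine ⟨v0 + 1 + (P.coeff 0).natAbs, fun v hv i => ?_⟩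
      have hT : taylor (v : ℤ) P
          = taylor (v : ℤ) P1 * X + C (v : ℤ) * taylor (v : ℤ) P1 + C (P.coeff 0) := by
        conv_lhs => rw [← hPe]
        rw [map_add, taylor_mul, taylor_X, taylor_C]
        ring
      have hnn := hv0 v (by omega)
      rw [hT, coeff_add, coeff_add, coeff_C_mul]
      rcases Nat.eq_zero_or_pos i with rfl | hi
      · rw [mul_coeff_zero, coeff_X_zero, mul_zero, zero_add, coeff_C_zero, taylor_coeff_zero]
        -- P1(v) ≥ 1
        have h1 : 1 ≤ P1.eval (v : ℤ) := by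
          have h2 := eval_ge_leading (taylor (v0 : ℤ) P1) (hv0 v0 le_rfl) ((v : ℤ) - v0) (by omega)
          rw [leadingCoeff_taylor, taylor_eval, hlc1] at h2
          have : (v : ℤ) - v0 + v0 = v := by ring
          rw [this] at h2
          omega
        have h2 : (v : ℤ) * 1 ≤ (v : ℤ) * P1.eval (v : ℤ) :=
          mul_le_mul_of_nonneg_left h1 (by omega)
        omega
      · obtain ⟨j, rfl⟩ : ∃ j, i = j + 1 := ⟨i - 1, by omega⟩
        rw [coeff_mul_X, coeff_C_succ, add_zero]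
        have h1 := hnn j
        have h2 := mul_nonneg (by omega : (0 : ℤ) ≤ v) (hnn (j + 1))
        omega

theorem leading_pos (P : ℤ[X]) (hdeg : 1 ≤ P.natDegree) (hpos : ∀ n : ℕ, 0 ≤ P.eval (n : ℤ)) :
    0 < P.leadingCoeff := by
  by_contra hcon
  have hP0 : P ≠ 0 := by rintro rfl; simp at hdeg
  have hlc : P.leadingCoeff < 0 :=
    lt_of_le_of_ne (not_lt.mp hcon) (leadingCoeff_ne_zero.mpr hP0)
  -- apply the translation lemma to `-P`
  obtain ⟨v0, hv0⟩ := taylor_nonneg (-P).natDegree (-P) le_rfl (by rw [leadingCoeff_neg]; omega)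
  have h2 := eval_ge_leading (taylor (v0 : ℤ) (-P)) (hv0 v0 le_rfl) 1 le_rfl
  rw [leadingCoeff_taylor, taylor_eval, leadingCoeff_neg, eval_neg] at h2
  have h3 := hpos (v0 + 1)
  have : ((v0 + 1 : ℕ) : ℤ) = 1 + v0 := by push_cast; ring
  rw [this] at h3
  omega

theorem exists_nat_poly (P : ℤ[X]) (hdeg : 1 ≤ P.natDegree)
    (hpos : ∀ n : ℕ, 0 ≤ P.eval (n : ℤ)) :
    ∃ (v : ℕ) (Q : ℕ[X]), Q.natDegree = P.natDegree ∧
      ∀ n : ℕ, (P.eval ((n + v : ℕ) : ℤ)).toNat = Q.eval n := by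
  obtain ⟨v, hv⟩ := taylor_nonneg P.natDegree P le_rfl (leading_pos P hdeg hpos)
  have hv := hv v le_rfl
  have hmem : taylor (v : ℤ) P ∈ Polynomial.lifts (Nat.castRingHom ℤ) := by
    rw [Polynomial.lifts_iff_coeff_lifts]
    intro i
    exact ⟨((taylor (v : ℤ) P).coeff i).toNat, by simpa using hv i⟩
  obtain ⟨Q, hQ⟩ := (Polynomial.mem_lifts _).mp hmem
  refine ⟨v, Q, ?_, ?_⟩
  · have h1 : (Q.map (Nat.castRingHom ℤ)).natDegree = Q.natDegree :=
      natDegree_map_eq_of_injective (RingHom.injective_nat _) Q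
    rw [← h1, hQ, natDegree_taylor]
  · intro n
    have h1 : (Q.map (Nat.castRingHom ℤ)).eval (n : ℤ) = ((Q.eval n : ℕ) : ℤ) := by
      rw [eval_natCast_map]; simp
    rw [hQ, taylor_eval] at h1
    have : ((n + v : ℕ) : ℤ) = (n : ℤ) + v := by push_cast; ring
    rw [this, h1]
    simp

end Pool.Agent.Lib.MP_8fac0f_nt
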