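import Pool.Agent.Lib.MP_8fac0f_nt.Digits

/-!
# The effect of a widely separated shift, repeated `2 ^ κ` times
-/

set_option autoImplicit false

namespace Pool.Agent.Lib.MP_8fac0f_nt

open Finset Polynomial

/-- Coefficients produced by iterating a shift `2 ^ κ` times. -/
def M : ℕ → ℕ → ℕ
  | 0, _ => 1
  | (κ + 1), l => M κ l * M κ l * Nat.choose (l * 2 ^ κ + l * 2 ^ κ) (l * 2 ^ κ)

theorem M_zero (κ : ℕ) : M κ 0 = 1 := by
  induction κ with
  | zero => rfl
  | succ κ ih => simp [M, ih]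

theorem M_pos (κ l : ℕ) : 0 < M κ l := by
  induction κ with
  | zero => simp [M]
  | succ κ ih =>
    simp only [M]
    exact Nat.mul_pos (Nat.mul_pos ih ih) (Nat.choose_pos (by omega))

theorem eval_shift (Q : ℕ[X]) (D : ℕ) (hD : Q.natDegree ≤ D) (x h : ℕ) :
    Q.eval (x + h) = ∑ l ∈ Finset.range (D + 1), (hasseDeriv l Q).eval x * h ^ l := by
  have h1 : (taylor x Q).eval h = Q.eval (h + x) := taylor_eval x Q h
  rw [add_comm, ← h1, eval_eq_sum_range' (n := D + 1) (by rw [natDegree_taylor]; omega)]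
  apply Finset.sum_congr rfl
  intro l _
  rw [taylor_coeff]

theorem eval_le_pow (Q : ℕ[X]) (D : ℕ) (hD : Q.natDegree ≤ D) (z : ℕ) (hz : 1 ≤ z) :
    Q.eval z ≤ z ^ D * Q.eval 1 := by
  rw [eval_eq_sum_range' (n := D + 1) (by omega), eval_eq_sum_range' (n := D + 1) (by omega),
    Finset.mul_sum]
  apply Finset.sum_le_sum
  intro i hi
  rw [Finset.mem_range] at hi
  have : z ^ i ≤ z ^ D := Nat.pow_le_pow_right hz (by omega)
  calc Q.coeff i * z ^ i ≤ Q.coeff i * z ^ D := Nat.mul_le_mul_left _ this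
    _ = z ^ D * (Q.coeff i * 1 ^ i) := by rw [one_pow]; ring

theorem hasse_eval_le (Q : ℕ[X]) (D : ℕ) (hD : Q.natDegree ≤ D) (l x c : ℕ) (hx : x ≤ 2 ^ c) :
    (hasseDeriv l Q).eval x ≤ 2 ^ (D * (c + 1)) * Q.eval 1 := by
  by_cases hl : l ≤ D
  · have h1 : (hasseDeriv l Q).eval x ≤ Q.eval (x + 1) := by
      rw [eval_shift Q D hD x 1]
      have := Finset.single_le_sum (f := fun l => (hasseDeriv l Q).eval x * 1 ^ l)
        (fun i _ => Nat.zero_le _) (Finset.mem_range.mpr (Nat.lt_succ_of_le hl))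
      simpa using this
    have h2 := eval_le_pow Q D hD (x + 1) (by omega)
    have h3 : x + 1 ≤ 2 ^ (c + 1) := by
      have : 1 ≤ 2 ^ c := Nat.one_le_two_pow
      rw [pow_succ]; omega
    have h4 : (x + 1) ^ D ≤ 2 ^ (D * (c + 1)) := by
      rw [mul_comm, pow_mul]; exact Nat.pow_le_pow_left h3 D
    exact h1.trans (h2.trans (Nat.mul_le_mul_right _ h4))
  · rw [hasseDeriv_eq_zero_of_lt_natDegree _ _ (by omega)]
    simp

/-- The key expansion. `Q (x + y H)` for a suitable `H` (a sum of `2 ^ κ` widely separated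
powers of two), for all `Q` of bounded degree and size, all bounded `y` and `x`. -/
theorem shift_lemma (D κ : ℕ) : ∃ E : ℕ, ∀ B b c : ℕ, ∃ H : ℕ, 0 < H ∧
    H ≤ 2 ^ (E * (B + b + c + 1)) ∧
    ∀ Q : ℕ[X], Q.natDegree ≤ D → Q.eval 1 ≤ 2 ^ b → ∀ y, y ≤ 2 ^ B → ∀ x, x ≤ 2 ^ c →
      T (Q.eval (x + y * H)) = ∑ l ∈ Finset.range (D + 1),
        T (M κ l * y ^ (l * 2 ^ κ) * (hasseDeriv (l * 2 ^ κ) Q).eval x) := by
  induction κ with
  | zero =>
    refine ⟨D + 1, fun B b c => ?_⟩
    set a := D * (c + 1) + B * D + b + 1 with ha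
    refine ⟨2 ^ a, pow_pos (by norm_num) _, Nat.pow_le_pow_right (by norm_num) (by rw [ha]; nlinarith),
      ?_⟩
    intro Q hQ hQ1 y hy x hx
    have e1 : Q.eval (x + y * 2 ^ a)
        = ∑ l ∈ Finset.range (D + 1), (y ^ l * (hasseDeriv l Q).eval x) * 2 ^ (a * l) := by
      rw [eval_shift Q D hQ]
      apply Finset.sum_congr rfl
      intro l _
      rw [mul_pow, ← pow_mul]; ring
    rw [e1, T_sep]
    · apply Finset.sum_congr rfl
      intro l _
      simp [M]
    · intro l hl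
      have h1 := hasse_eval_le Q D hQ l x c hx
      have h2 : y ^ l ≤ 2 ^ (B * D) := by
        calc y ^ l ≤ (2 ^ B) ^ l := Nat.pow_le_pow_left hy l
          _ = 2 ^ (B * l) := by rw [← pow_mul]
          _ ≤ 2 ^ (B * D) := Nat.pow_le_pow_right (by norm_num) (Nat.mul_le_mul_left _ (by omega))
      calc y ^ l * (hasseDeriv l Q).eval x
          ≤ 2 ^ (B * D) * (2 ^ (D * (c + 1)) * 2 ^ b) :=
            Nat.mul_le_mul h2 (h1.trans (Nat.mul_le_mul_left _ hQ1))
        _ = 2 ^ (D * (c + 1) + B * D + b) := by rw [← pow_add, ← pow_add]; congr 1; ring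
        _ < 2 ^ a := Nat.pow_lt_pow_right (by norm_num) (by omega)
  | succ κ ih =>
    obtain ⟨E, hE⟩ := ih
    -- a bound for the coefficients `M κ l`
    obtain ⟨μ, hμ⟩ : ∃ μ, ∀ l ∈ Finset.range (D + 1), M κ l ≤ 2 ^ μ := by
      refine ⟨∑ l ∈ Finset.range (D + 1), M κ l, fun l hl => ?_⟩
      exact (Finset.single_le_sum (f := fun l => M κ l) (fun i _ => Nat.zero_le _) hl).trans
        Nat.lt_two_pow_self.le
    set E1 := E * (μ + 2 * D + 3) with hE1
    refine ⟨E1 + E * (E1 + 4) + 1, fun B b c => ?_⟩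
    set s := B + b + c + 1 with hs
    set b' := μ + B * D + D + b with hb'
    obtain ⟨H1, hH1, hH1le, hQ1⟩ := hE B b' c
    set c' := c + B + E * (B + b' + c + 1) + 1 with hc'
    obtain ⟨H2, hH2, hH2le, hQ2⟩ := hE B b c'
    refine ⟨H1 + H2, by omega, ?_, ?_⟩
    · have f1 : B + b' + c + 1 ≤ (μ + 2 * D + 3) * s := by
        rw [hb', hs]; nlinarith [Nat.zero_le (μ * (B + b + c)), Nat.zero_le (D * (B + b + c)),
          Nat.zero_le (D * B), Nat.zero_le (D * b), Nat.zero_le (D * c)]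
      have f2 : E * (B + b' + c + 1) ≤ E1 * s := by
        rw [hE1, mul_assoc]; exact Nat.mul_le_mul_left _ f1
      have f3 : B + b + c' + 1 ≤ (E1 + 4) * s := by
        have : B + b + c' + 1 = (B + b + c + 1) + B + 1 + E * (B + b' + c + 1) := by
          rw [hc']; ring
        rw [this]
        have h5 : B + 1 ≤ s := by omega
        nlinarith
      have f4 : E * (B + b + c' + 1) ≤ E * (E1 + 4) * s := by
        rw [mul_assoc]; exact Nat.mul_le_mul_left _ f3
      have g1 : H1 ≤ 2 ^ (E1 * s + E * (E1 + 4) * s) :=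
        hH1le.trans (Nat.pow_le_pow_right (by norm_num) (by omega))
      have g2 : H2 ≤ 2 ^ (E1 * s + E * (E1 + 4) * s) :=
        hH2le.trans (Nat.pow_le_pow_right (by norm_num) (by omega))
      have g3 : 2 ^ (E1 * s + E * (E1 + 4) * s + 1) ≤ 2 ^ ((E1 + E * (E1 + 4) + 1) * s) := by
        apply Nat.pow_le_pow_right (by norm_num)
        have : 1 ≤ s := by omega
        nlinarith
      rw [pow_succ] at g3
      omega
    · intro Q hQ hQ1' y hy x hx
      -- step 1
      have hx' : x + y * H1 ≤ 2 ^ c' := by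
        have h1 : y * H1 ≤ 2 ^ (B + E * (B + b' + c + 1)) := by
          rw [pow_add]; exact Nat.mul_le_mul hy hH1le
        have h2 : x ≤ 2 ^ (c + B + E * (B + b' + c + 1)) :=
          hx.trans (Nat.pow_le_pow_right (by norm_num) (by omega))
        have h3 : 2 ^ (B + E * (B + b' + c + 1)) ≤ 2 ^ (c + B + E * (B + b' + c + 1)) :=
          Nat.pow_le_pow_right (by norm_num) (by omega)
        rw [hc', pow_succ]
        omega
      have e1 : x + y * (H1 + H2) = (x + y * H1) + y * H2 := by ring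
      rw [e1, hQ2 Q hQ hQ1' y hy _ hx']
      -- step 2
      have e2 : ∀ l ∈ Finset.range (D + 1),
          T (M κ l * y ^ (l * 2 ^ κ) * (hasseDeriv (l * 2 ^ κ) Q).eval (x + y * H1))
            = ∑ m ∈ Finset.range (D + 1), T (M κ l * M κ m * y ^ ((l + m) * 2 ^ κ) *
                (Nat.choose (m * 2 ^ κ + l * 2 ^ κ) (m * 2 ^ κ)
                  * (hasseDeriv (m * 2 ^ κ + l * 2 ^ κ) Q).eval x)) := by
        intro l hl
        set R : ℕ[X] := (M κ l * y ^ (l * 2 ^ κ)) • hasseDeriv (l * 2 ^ κ) Q with hR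
        have r1 : ∀ z : ℕ, R.eval z = M κ l * y ^ (l * 2 ^ κ) * (hasseDeriv (l * 2 ^ κ) Q).eval z := by
          intro z; rw [hR, eval_smul, smul_eq_mul]
        have r2 : R.natDegree ≤ D := by
          rw [hR]
          refine (natDegree_smul_le _ _).trans ?_
          refine (natDegree_hasseDeriv_le _ _).trans ?_
          omega
        have r3 : R.eval 1 ≤ 2 ^ b' := by
          rw [r1]
          by_cases hlD : l * 2 ^ κ ≤ D
          · have s1 : y ^ (l * 2 ^ κ) ≤ 2 ^ (B * D) := by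
              calc y ^ (l * 2 ^ κ) ≤ (2 ^ B) ^ (l * 2 ^ κ) := Nat.pow_le_pow_left hy _
                _ = 2 ^ (B * (l * 2 ^ κ)) := by rw [← pow_mul]
                _ ≤ 2 ^ (B * D) := Nat.pow_le_pow_right (by norm_num) (Nat.mul_le_mul_left _ hlD)
            have s2 := hasse_eval_le Q D hQ (l * 2 ^ κ) 1 0 (by norm_num)
            calc M κ l * y ^ (l * 2 ^ κ) * (hasseDeriv (l * 2 ^ κ) Q).eval 1
                ≤ 2 ^ μ * 2 ^ (B * D) * (2 ^ (D * (0 + 1)) * 2 ^ b) :=
                  Nat.mul_le_mul (Nat.mul_le_mul (hμ l hl) s1)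
                    (s2.trans (Nat.mul_le_mul_left _ hQ1'))
              _ = 2 ^ b' := by rw [← pow_add, ← pow_add, ← pow_add]; congr 1; rw [hb']; ring
          · rw [hasseDeriv_eq_zero_of_lt_natDegree _ _ (by omega)]
            simp
        rw [← r1, hQ1 R r2 r3 y hy x hx]
        apply Finset.sum_congr rfl
        intro m _
        congr 1
        have r4 : hasseDeriv (m * 2 ^ κ) R = (M κ l * y ^ (l * 2 ^ κ)) •
            (Nat.choose (m * 2 ^ κ + l * 2 ^ κ) (m * 2 ^ κ) •
              hasseDeriv (m * 2 ^ κ + l * 2 ^ κ) Q) := by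
          rw [hR, map_smul]
          congr 1
          have := hasseDeriv_comp (R := ℕ) (m * 2 ^ κ) (l * 2 ^ κ)
          have := congrArg (fun f => f Q) this
          simpa using this
        rw [r4, eval_smul, eval_smul, smul_eq_mul, smul_eq_mul]
        have r5 : y ^ ((l + m) * 2 ^ κ) = y ^ (l * 2 ^ κ) * y ^ (m * 2 ^ κ) := by
          rw [← pow_add]; congr 1; ring
        rw [r5]; ring
      rw [Finset.sum_congr rfl e2, sum_symm (fun l m => T (M κ l * M κ m * y ^ ((l + m) * 2 ^ κ) *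
                (Nat.choose (m * 2 ^ κ + l * 2 ^ κ) (m * 2 ^ κ)
                  * (hasseDeriv (m * 2 ^ κ + l * 2 ^ κ) Q).eval x)))]
      · apply Finset.sum_congr rfl
        intro l _
        have e3 : l * 2 ^ κ + l * 2 ^ κ = l * 2 ^ (κ + 1) := by ring
        have e4 : (l + l) * 2 ^ κ = l * 2 ^ (κ + 1) := by ring
        simp only [M]
        rw [e3, e4]
        congr 1
        ring
      · intro l m
        have e5 : Nat.choose (m * 2 ^ κ + l * 2 ^ κ) (m * 2 ^ κ)
            = Nat.choose (l * 2 ^ κ + m * 2 ^ κ) (l * 2 ^ κ) := by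
          rw [add_comm (l * 2 ^ κ)]
          exact Nat.choose_symm_add
        rw [e5, add_comm (m * 2 ^ κ), add_comm m l, mul_comm (M κ m)]

end Pool.Agent.Lib.MP_8fac0f_nt
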