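import Pool.Agent.Lib.MP_8fac0f_nt.Digits

/-!
# The vectors `(T (u ^ (2 ^ κ) * o x))_x`, `o x` distinct odd numbers, span everything
-/

set_option autoImplicit false

namespace Pool.Agent.Lib.MP_8fac0f_nt

open Finset

/-- A form of Bernoulli's inequality in the naturals. -/
theorem bern (q x y : ℕ) : (x + y) ^ q ≤ x ^ q + q * y * (x + y) ^ (q - 1) := by
  induction q with
  | zero => simp
  | succ q ih =>
    rcases Nat.eq_zero_or_pos q with rfl | hq
    · simp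
    · have e : q + 1 - 1 = (q - 1) + 1 := by omega
      have e2 : (x + y) ^ q = (x + y) ^ (q - 1) * (x + y) := by
        rw [← pow_succ, Nat.sub_add_cancel hq]
      rw [Nat.add_sub_cancel]
      calc (x + y) ^ (q + 1) = (x + y) ^ q * x + (x + y) ^ q * y := by ring
        _ ≤ (x ^ q + q * y * (x + y) ^ (q - 1)) * x + (x + y) ^ q * y := by gcongr
        _ = x ^ (q + 1) + q * y * ((x + y) ^ (q - 1) * x) + (x + y) ^ q * y := by ring
        _ ≤ x ^ (q + 1) + q * y * ((x + y) ^ (q - 1) * (x + y)) + (x + y) ^ q * y := by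
            gcongr; exact Nat.le_add_right _ _
        _ = x ^ (q + 1) + (q + 1) * y * (x + y) ^ q := by rw [← e2]; ring

/-- existence of a good `r`: `r ≡ 1 (mod 4)`, `r` large, and `Z r^q` just above a power of two. -/
theorem exists_r (Z q r0 : ℕ) (hZ : 1 ≤ Z) (hq : 1 ≤ q) :
    ∃ r m : ℕ, r % 4 = 1 ∧ r0 ≤ r ∧ r0 ≤ m ∧ (Z - 1) * r ^ q < 2 ^ m ∧ 2 ^ m ≤ Z * r ^ q ∧
      Z * r ^ q < 2 ^ (m + 1) := by
  classical
  set r1 := r0 + 8 * q * Z + 8 with hr1
  set m := Z * r1 ^ q with hm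
  have hex : ∃ j, 2 ^ m ≤ Z * (4 * j + 1) ^ q := by
    refine ⟨2 ^ m, ?_⟩
    have h1 : (4 * 2 ^ m + 1) ^ 1 ≤ (4 * 2 ^ m + 1) ^ q := Nat.pow_le_pow_right (by omega) hq
    have h2 : 1 * (4 * 2 ^ m + 1) ^ q ≤ Z * (4 * 2 ^ m + 1) ^ q := Nat.mul_le_mul_right _ hZ
    rw [pow_one] at h1
    omega
  set j := Nat.find hex with hj
  have hj1 : 2 ^ m ≤ Z * (4 * j + 1) ^ q := Nat.find_spec hex
  have hlt : Z * r1 ^ q < 2 ^ m := Nat.lt_two_pow_self
  have hr1lt : r1 < 4 * j + 1 := by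
    by_contra hcon
    have := Nat.mul_le_mul_left Z (Nat.pow_le_pow_left (not_lt.mp hcon) q)
    omega
  have hj2 : Z * (4 * (j - 1) + 1) ^ q < 2 ^ m := by
    have := Nat.find_min hex (m := j - 1) (by omega)
    omega
  set r := 4 * j + 1 with hr
  have hrx : r = (4 * (j - 1) + 1) + 4 := by omega
  set x := 4 * (j - 1) + 1 with hx
  have hb := bern q x 4
  rw [← hrx] at hb
  have hrq : r ^ q = r ^ (q - 1) * r := by rw [← pow_succ]; congr 1; omega
  have hbig : 8 * q * Z * r ^ (q - 1) ≤ r ^ q := by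
    rw [hrq, mul_comm (r ^ (q - 1))]
    exact Nat.mul_le_mul_right _ (by omega)
  refine ⟨r, m, by omega, by omega, ?_, ?_, hj1, ?_⟩
  · have : 1 * r1 ^ 1 ≤ Z * r1 ^ q := Nat.mul_le_mul hZ (Nat.pow_le_pow_right (by omega) hq)
    rw [pow_one] at this
    omega
  · -- (Z-1) r^q < 2^m
    have h1 : Z * r ^ q ≤ Z * x ^ q + 4 * q * Z * r ^ (q - 1) := by
      calc Z * r ^ q ≤ Z * (x ^ q + q * 4 * r ^ (q - 1)) := Nat.mul_le_mul_left _ hb
        _ = Z * x ^ q + 4 * q * Z * r ^ (q - 1) := by ring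
    have h2 : (Z - 1) * r ^ q + r ^ q = Z * r ^ q := by
      rw [← Nat.succ_mul]; congr 1; omega
    have h3 : 4 * q * Z * r ^ (q - 1) ≤ 8 * q * Z * r ^ (q - 1) := by
      apply Nat.mul_le_mul_right
      apply Nat.mul_le_mul_right
      omega
    omega
  · have h1 : Z * r ^ q ≤ Z * x ^ q + 4 * q * Z * r ^ (q - 1) := by
      calc Z * r ^ q ≤ Z * (x ^ q + q * 4 * r ^ (q - 1)) := Nat.mul_le_mul_left _ hb
        _ = Z * x ^ q + 4 * q * Z * r ^ (q - 1) := by ring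
    have h3 : 2 * (4 * q * Z * r ^ (q - 1)) = 8 * q * Z * r ^ (q - 1) := by ring
    have h4 : r ^ q ≤ Z * r ^ q := Nat.le_mul_of_pos_left _ hZ
    rw [pow_succ]
    omega

/-- The switch lemma. -/
theorem switch (κ Z : ℕ) (hZ : Z % 2 = 1) : ∃ u1 u2 : ℕ,
    (∀ z, z < Z → T (u1 ^ (2 ^ κ) * z) = T (u2 ^ (2 ^ κ) * z)) ∧
    T (u1 ^ (2 ^ κ) * Z) = T (u2 ^ (2 ^ κ) * Z) + 1 := by
  set q := 2 ^ κ with hq
  have hq1 : 1 ≤ q := Nat.one_le_two_pow
  have hZ1 : 1 ≤ Z := by omega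
  obtain ⟨r, m, hr4, hr0, hm0, hm1, hm2, hm3⟩ :=
    exists_r Z q (2 ^ (κ + 1 + q) * Z ^ q + 2 * κ + 2) hZ1 hq1
  obtain ⟨a, ha⟩ : ∃ a, m = a + κ := ⟨m - κ, by omega⟩
  obtain ⟨a0, ha0⟩ : ∃ a0, a = κ + 2 + a0 := ⟨a - κ - 2, by omega⟩
  have hr1 : 1 ≤ r := by omega
  set A : ℕ → ℕ → ℕ := fun i z => Nat.choose q i * r ^ (q - i) * Z ^ i * z with hA
  -- expansion
  have hexp : ∀ e z, (2 ^ e * Z + r) ^ q * z = ∑ i ∈ Finset.range (q + 1), A i z * 2 ^ (e * i) := by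
    intro e z
    rw [add_pow, Finset.sum_mul]
    apply Finset.sum_congr rfl
    intro i _
    simp only [hA, Nat.cast_id]
    rw [mul_pow, ← pow_mul]; ring
  -- size of the terms
  have hAsmall : ∀ i, 1 ≤ i → i ≤ q → ∀ z, z ≤ Z → A i z < 2 ^ a := by
    intro i hi1 hiq z hz
    have h1 : A i z * r ≤ (2 ^ q * Z ^ q) * (Z * r ^ q) := by
      simp only [hA]
      have c1 : Nat.choose q i ≤ 2 ^ q := Nat.choose_le_two_pow _ _
      have c2 : Z ^ i ≤ Z ^ q := Nat.pow_le_pow_right hZ1 hiq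
      have c3 : r ^ (q - i) * r ≤ r ^ q := by
        rw [← pow_succ]; exact Nat.pow_le_pow_right hr1 (by omega)
      calc Nat.choose q i * r ^ (q - i) * Z ^ i * z * r
          = Nat.choose q i * (r ^ (q - i) * r) * Z ^ i * z := by ring
        _ ≤ 2 ^ q * r ^ q * Z ^ q * Z := by gcongr
        _ = (2 ^ q * Z ^ q) * (Z * r ^ q) := by ring
    have h2 : (2 ^ q * Z ^ q) * (Z * r ^ q) < (2 ^ q * Z ^ q) * 2 ^ (m + 1) :=
      Nat.mul_lt_mul_of_pos_left hm3 (by positivity)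
    have h3 : (2 ^ q * Z ^ q) * 2 ^ (m + 1) = (2 ^ (κ + 1 + q) * Z ^ q) * 2 ^ a := by
      rw [ha, show a + κ + 1 = κ + 1 + a by ring, pow_add 2 (κ + 1) a, pow_add 2 (κ + 1) q]; ring
    have h4 : (2 ^ (κ + 1 + q) * Z ^ q) * 2 ^ a ≤ r * 2 ^ a := Nat.mul_le_mul_right _ (by omega)
    have h5 : A i z * r < 2 ^ a * r := by
      calc A i z * r ≤ _ := h1
        _ < _ := h2
        _ = _ := h3
        _ ≤ r * 2 ^ a := h4
        _ = 2 ^ a * r := by ring
    exact Nat.lt_of_mul_lt_mul_right h5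
  -- a huge exponent
  obtain ⟨a', ha'⟩ : ∃ a', ∀ i, i < q + 1 → ∀ z, z ≤ Z → A i z < 2 ^ a' := by
    refine ⟨∑ i ∈ Finset.range (q + 1), A i Z, fun i hi z hz => ?_⟩
    have h1 : A i z ≤ A i Z := by simp only [hA]; gcongr
    have h2 : A i Z ≤ ∑ i ∈ Finset.range (q + 1), A i Z :=
      Finset.single_le_sum (f := fun i => A i Z) (fun i _ => Nat.zero_le _)
        (Finset.mem_range.mpr hi)
    exact (h1.trans h2).trans_lt Nat.lt_two_pow_self
  have hU2 : ∀ z, z ≤ Z → T ((2 ^ a' * Z + r) ^ q * z) = ∑ i ∈ Finset.range (q + 1), T (A i z) := by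
    intro z hz
    rw [hexp, T_sep]
    intro i hi
    exact ha' i hi z hz
  -- the overlapping version
  obtain ⟨q', hq'⟩ : ∃ q', q = q' + 1 := ⟨q - 1, by omega⟩
  set W : ℕ → ℕ := fun z => r ^ (q - 1) * Z * z
    + 4 * (2 ^ a0 * ∑ i ∈ Finset.range q', A (i + 2) z * 2 ^ (a * i)) with hW
  have hA0 : ∀ z, A 0 z = r ^ q * z := by intro z; simp [hA]
  have hA1 : ∀ z, A 1 z = 2 ^ κ * (r ^ (q - 1) * Z * z) := by
    intro z; simp only [hA, Nat.choose_one_right, pow_one]; rw [hq]; ring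
  have hWsum : ∀ z, ∑ i ∈ Finset.range q, A (i + 1) z * 2 ^ (a * (i + 1)) = 2 ^ (a + κ) * W z := by
    intro z
    rw [hq', Finset.sum_range_succ', hA1, hW]
    simp only
    have e1 : ∀ i, A (i + 1 + 1) z * 2 ^ (a * (i + 1 + 1))
        = 2 ^ (a + κ) * (4 * 2 ^ a0) * (A (i + 2) z * 2 ^ (a * i)) := by
      intro i
      have : 2 ^ (a * (i + 1 + 1)) = 2 ^ (a + κ) * (4 * 2 ^ a0) * 2 ^ (a * i) := by
        have e4 : (4 : ℕ) = 2 ^ 2 := by norm_num
        rw [e4, ← pow_add, ← pow_add, ← pow_add]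
        congr 1
        rw [ha0]; ring
      rw [this]; ring
    rw [Finset.sum_congr rfl (fun i _ => e1 i), ← Finset.mul_sum]
    ring
  have hU1 : ∀ z, (2 ^ a * Z + r) ^ q * z = 2 ^ (a + κ) * W z + r ^ q * z := by
    intro z
    rw [hexp, Finset.sum_range_succ', hWsum, hA0]
    simp
  have hTW : ∀ z, z ≤ Z → T (W z) = ∑ i ∈ Finset.range q, T (A (i + 1) z) := by
    intro z hz
    have h1 : 2 ^ (a + κ) * W z
        = 2 ^ a * ∑ i ∈ Finset.range q, A (i + 1) z * 2 ^ (a * i) := by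
      rw [← hWsum, Finset.mul_sum]
      apply Finset.sum_congr rfl
      intro i _
      rw [show a * (i + 1) = a * i + a by ring, pow_add]; ring
    rw [← T_pow_mul (a + κ) (W z), h1, T_pow_mul, T_sep]
    intro i hi
    exact hAsmall (i + 1) (by omega) (by omega) z hz
  refine ⟨2 ^ a * Z + r, 2 ^ a' * Z + r, ?_, ?_⟩
  · intro z hz
    have hlow : r ^ q * z < 2 ^ (a + κ) := by
      calc r ^ q * z ≤ r ^ q * (Z - 1) := Nat.mul_le_mul_left _ (by omega)
        _ = (Z - 1) * r ^ q := by ring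
        _ < 2 ^ (a + κ) := by rw [← ha]; exact hm1
    rw [hU1, T_add _ _ _ hlow, hU2 z hz.le, Finset.sum_range_succ', hTW z hz.le, hA0]
  · obtain ⟨ρ, hρ⟩ : ∃ ρ, r ^ q * Z = 2 ^ (a + κ) + ρ := by
      refine ⟨r ^ q * Z - 2 ^ (a + κ), ?_⟩
      rw [← ha]
      have : Z * r ^ q = r ^ q * Z := by ring
      omega
    have hρlt : ρ < 2 ^ (a + κ) := by
      have h1 : Z * r ^ q = r ^ q * Z := by ring
      rw [ha, pow_succ] at hm3
      omega
    have e1 : (2 ^ a * Z + r) ^ q * Z = 2 ^ (a + κ) * (W Z + 1) + ρ := by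
      rw [hU1, hρ]; ring
    have e2 : r ^ q * Z = 2 ^ (a + κ) * 1 + ρ := by rw [hρ]; ring
    have hWmod : W Z % 4 = 1 := by
      have h1 : r ^ (q - 1) % 4 = 1 := by
        rw [Nat.pow_mod, hr4]; simp
      have h2 : Z * Z % 4 = 1 := by
        have : Z % 4 = 1 ∨ Z % 4 = 3 := by omega
        rcases this with h | h <;> rw [Nat.mul_mod, h]
      simp only [hW]
      rw [Nat.add_mul_mod_self_left, mul_assoc, Nat.mul_mod, h1, h2]
    rw [e1, T_add _ _ _ hρlt, T_succ_of_mod _ hWmod, hU2 Z le_rfl, Finset.sum_range_succ',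
      hTW Z le_rfl, hA0, e2, T_add _ _ _ hρlt, T_one]
    have : (1 : ZMod 2) + 1 = 0 := by decide
    linear_combination (-1 : ZMod 2) * this

/-- Spanning lemma. -/
theorem span_lemma (κ : ℕ) (X : Finset ℕ) (o : ℕ → ℕ) :
    (∀ x ∈ X, o x % 2 = 1) → (∀ x ∈ X, ∀ y ∈ X, o x = o y → x = y) →
    ∀ g : ℕ → ZMod 2, ∃ U : List ℕ, ∀ x ∈ X,
      (U.map (fun u => T (u ^ (2 ^ κ) * o x))).sum = g x := by
  classical
  induction X using Finset.induction_on_max_value o with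
  | empty => intro _ _ g; exact ⟨[], by simp⟩
  | insert a s ha hmax ih =>
    intro hodd hinj g
    obtain ⟨U, hU⟩ := ih (fun x hx => hodd x (Finset.mem_insert_of_mem hx))
      (fun x hx y hy => hinj x (Finset.mem_insert_of_mem hx) y (Finset.mem_insert_of_mem hy)) g
    by_cases hga : (U.map (fun u => T (u ^ (2 ^ κ) * o a))).sum = g a
    · refine ⟨U, fun x hx => ?_⟩
      rcases Finset.mem_insert.mp hx with rfl | hx
      · exact hga
      · exact hU x hx
    · obtain ⟨u1, u2, h1, h2⟩ := switch κ (o a) (hodd a (Finset.mem_insert_self _ _))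
      refine ⟨u1 :: u2 :: U, fun x hx => ?_⟩
      simp only [List.map_cons, List.sum_cons]
      rcases Finset.mem_insert.mp hx with rfl | hx
      · rw [h2]
        set t := (U.map (fun u => T (u ^ (2 ^ κ) * o x))).sum
        set v := T (u2 ^ 2 ^ κ * o x)
        set w := g x
        have key : ∀ t v w : ZMod 2, t ≠ w → v + 1 + (v + t) = w := by decide
        exact key t v w hga
      · have hlt : o x < o a := by
          refine lt_of_le_of_ne (hmax x hx) (fun h => ?_)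
          have := hinj x (Finset.mem_insert_of_mem hx) a (Finset.mem_insert_self _ _) h
          rw [this] at hx; exact ha hx
        rw [h1 (o x) hlt, ← add_assoc, CharTwo.add_self_eq_zero, zero_add]
        exact hU x hx

end Pool.Agent.Lib.MP_8fac0f_nt
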