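import Pool.Agent.Lib.MP_8fac0f_nt.Shift
import Pool.Agent.Lib.MP_8fac0f_nt.Span

/-!
# Every word occurs along a polynomial with natural coefficients
-/

set_option autoImplicit false

namespace Pool.Agent.Lib.MP_8fac0f_nt

open Finset Polynomial

theorem copies_lemma (D : ℕ) : ∃ E : ℕ, ∀ B b c : ℕ, ∃ H : ℕ, 0 < H ∧
    H ≤ 2 ^ (E * (B + b + c + 1)) ∧
    ∀ Q : ℕ[X], Q.natDegree ≤ D → Q.eval 1 ≤ 2 ^ b → ∀ y, y ≤ 2 ^ B → ∀ x, x ≤ 2 ^ c →
      T (Q.eval (x + y * H)) = T (Q.eval x) := by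
  obtain ⟨E, hE⟩ := shift_lemma D D
  refine ⟨E, fun B b c => ?_⟩
  obtain ⟨H, h0, h1, h2⟩ := hE B b c
  refine ⟨H, h0, h1, fun Q hQ hQ1 y hy x hx => ?_⟩
  rw [h2 Q hQ hQ1 y hy x hx, Finset.sum_eq_single_of_mem 0 (by simp)]
  · simp [M_zero]
  · intro l _ hl
    have h3 : D < 2 ^ D := Nat.lt_two_pow_self
    have h4 : 1 * 2 ^ D ≤ l * 2 ^ D := Nat.mul_le_mul_right _ (by omega)
    rw [hasseDeriv_eq_zero_of_lt_natDegree _ _ (by omega)]
    simp [T_zero]

/-- The polynomial `M κ 1 • hasseDeriv (2 ^ κ) P`. -/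
noncomputable def der (κ : ℕ) (P : ℕ[X]) : ℕ[X] := M κ 1 • hasseDeriv (2 ^ κ) P

theorem additive (P : ℕ[X]) (d κ : ℕ) (hd : P.natDegree = d) (h1 : 2 ^ κ < d)
    (h2 : d ≤ 2 ^ (κ + 1)) (U : List ℕ) : ∀ b c : ℕ, ∃ h : ℕ,
    (∀ R : ℕ[X], R.natDegree ≤ 2 ^ κ → R.eval 1 ≤ 2 ^ b → ∃ t : ZMod 2, ∀ x, x ≤ 2 ^ c →
      T (R.eval (x + h)) = T (R.eval x) + t) ∧
    ∃ t : ZMod 2, ∀ x, x ≤ 2 ^ c →
      T (P.eval (x + h)) = T (P.eval x)
        + (U.map (fun u => T (u ^ (2 ^ κ) * (der κ P).eval x))).sum + t := by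
  induction U with
  | nil =>
    intro b c
    exact ⟨0, fun R _ _ => ⟨0, fun x _ => by simp⟩, 0, fun x _ => by simp⟩
  | cons u U ih =>
    intro b c
    set Ru : ℕ[X] := u ^ (2 ^ κ) • der κ P with hRu
    have hRudeg : Ru.natDegree ≤ 2 ^ κ := by
      rw [hRu]
      refine (natDegree_smul_le _ _).trans ?_
      unfold der
      refine (natDegree_smul_le _ _).trans ?_
      refine (natDegree_hasseDeriv_le _ _).trans ?_
      rw [pow_succ] at h2
      omega
    obtain ⟨h1', hR1, t1, hP1⟩ := ih (b + Ru.eval 1) c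
    obtain ⟨E, hE⟩ := shift_lemma d κ
    obtain ⟨H, _, _, hH⟩ := hE u (b + P.eval 1) (c + h1' + 1)
    have hwin : ∀ x, x ≤ 2 ^ c → x + h1' ≤ 2 ^ (c + h1' + 1) := by
      intro x hx
      have g1 : h1' < 2 ^ h1' := Nat.lt_two_pow_self
      have g2 : 2 ^ h1' ≤ 2 ^ (c + h1') := Nat.pow_le_pow_right (by norm_num) (by omega)
      have g3 : 2 ^ c ≤ 2 ^ (c + h1') := Nat.pow_le_pow_right (by norm_num) (by omega)
      rw [pow_succ]; omega
    have hule : u ≤ 2 ^ u := Nat.lt_two_pow_self.le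
    refine ⟨h1' + u * H, ?_, ?_⟩
    · intro R hR hRb
      obtain ⟨t, ht⟩ := hR1 R hR (hRb.trans (Nat.pow_le_pow_right (by norm_num) (by omega)))
      have hdc : (hasseDeriv (2 ^ κ) R).natDegree ≤ 0 := by
        refine (natDegree_hasseDeriv_le _ _).trans ?_
        omega
      obtain ⟨a, ha⟩ : ∃ a, hasseDeriv (2 ^ κ) R = C a := ⟨_, eq_C_of_natDegree_le_zero hdc⟩
      refine ⟨t + T (M κ 1 * u ^ (2 ^ κ) * a), fun x hx => ?_⟩
      rw [← add_assoc, hH R (by omega) (hRb.trans (Nat.pow_le_pow_right (by norm_num) (by omega)))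
        u hule _ (hwin x hx)]
      have e1 : ∑ l ∈ Finset.range (d + 1),
          T (M κ l * u ^ (l * 2 ^ κ) * (hasseDeriv (l * 2 ^ κ) R).eval (x + h1'))
          = ∑ l ∈ Finset.range 2,
          T (M κ l * u ^ (l * 2 ^ κ) * (hasseDeriv (l * 2 ^ κ) R).eval (x + h1')) := by
        symm
        apply Finset.sum_subset
        · intro l hl
          rw [Finset.mem_range] at hl ⊢
          have : 1 ≤ 2 ^ κ := Nat.one_le_two_pow
          omega
        · intro l _ hl
          rw [Finset.mem_range, not_lt] at hl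
          have g1 : 2 * 2 ^ κ ≤ l * 2 ^ κ := Nat.mul_le_mul_right _ hl
          have g2 : 1 ≤ 2 ^ κ := Nat.one_le_two_pow
          rw [hasseDeriv_eq_zero_of_lt_natDegree _ _ (by omega)]
          simp [T_zero]
      rw [e1, Finset.sum_range_succ, Finset.sum_range_one]
      simp only [zero_mul, one_mul, pow_zero, M_zero, hasseDeriv_zero', ha, eval_C]
      rw [ht x hx]
      ring
    · obtain ⟨tu, htu⟩ := hR1 Ru hRudeg
        (Nat.lt_two_pow_self.le.trans (Nat.pow_le_pow_right (by norm_num) (by omega)))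
      have hdc : (hasseDeriv (2 * 2 ^ κ) P).natDegree ≤ 0 := by
        refine (natDegree_hasseDeriv_le _ _).trans ?_
        rw [pow_succ] at h2
        omega
      obtain ⟨a, ha⟩ : ∃ a, hasseDeriv (2 * 2 ^ κ) P = C a := ⟨_, eq_C_of_natDegree_le_zero hdc⟩
      refine ⟨t1 + tu + T (M κ 2 * u ^ (2 * 2 ^ κ) * a), fun x hx => ?_⟩
      rw [← add_assoc, hH P (by omega)
        (Nat.lt_two_pow_self.le.trans (Nat.pow_le_pow_right (by norm_num) (by omega)))
        u hule _ (hwin x hx)]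
      have e1 : ∑ l ∈ Finset.range (d + 1),
          T (M κ l * u ^ (l * 2 ^ κ) * (hasseDeriv (l * 2 ^ κ) P).eval (x + h1'))
          = ∑ l ∈ Finset.range 3,
          T (M κ l * u ^ (l * 2 ^ κ) * (hasseDeriv (l * 2 ^ κ) P).eval (x + h1')) := by
        symm
        apply Finset.sum_subset
        · intro l hl
          rw [Finset.mem_range] at hl ⊢
          have : 1 ≤ 2 ^ κ := Nat.one_le_two_pow
          omega
        · intro l _ hl
          rw [Finset.mem_range, not_lt] at hl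
          have g1 : 3 * 2 ^ κ ≤ l * 2 ^ κ := Nat.mul_le_mul_right _ hl
          have g2 : 1 ≤ 2 ^ κ := Nat.one_le_two_pow
          rw [pow_succ] at h2
          rw [hasseDeriv_eq_zero_of_lt_natDegree _ _ (by omega)]
          simp [T_zero]
      rw [e1, Finset.sum_range_succ, Finset.sum_range_succ, Finset.sum_range_one]
      simp only [zero_mul, one_mul, pow_zero, M_zero, hasseDeriv_zero', ha, eval_C,
        List.map_cons, List.sum_cons]
      rw [hP1 x hx]
      have e2 : T (M κ 1 * u ^ 2 ^ κ * (hasseDeriv (2 ^ κ) P).eval (x + h1'))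
          = T (u ^ 2 ^ κ * (der κ P).eval x) + tu := by
        have g1 := htu x hx
        have g2 : ∀ z, Ru.eval z = u ^ 2 ^ κ * (der κ P).eval z := by
          intro z; rw [hRu, eval_smul, smul_eq_mul]
        rw [g2, g2] at g1
        rw [← g1]
        congr 1
        unfold der
        rw [eval_smul, smul_eq_mul]; ring
      rw [e2]
      ring

theorem eval_strictMono (A : ℕ[X]) (hA : 1 ≤ A.natDegree) (x y : ℕ) (hxy : x < y) :
    A.eval x < A.eval y := by
  rw [eval_eq_sum_range, eval_eq_sum_range]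
  apply Finset.sum_lt_sum
  · intro i _
    exact Nat.mul_le_mul_left _ (Nat.pow_le_pow_left hxy.le i)
  · refine ⟨A.natDegree, Finset.mem_range.mpr (Nat.lt_succ_self _), ?_⟩
    apply Nat.mul_lt_mul_of_pos_left (Nat.pow_lt_pow_left hxy (by omega))
    apply Nat.pos_of_ne_zero
    have : A ≠ 0 := by rintro rfl; simp at hA
    exact (leadingCoeff_ne_zero.mpr this)

theorem window (A : ℕ[X]) (hA : 1 ≤ A.natDegree) (K : ℕ) :
    ∃ v : ℕ, 1 ≤ v ∧ A.eval (v + K) < 2 * A.eval v := by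
  set D := A.natDegree with hD
  set v := 2 * D * K + 1 with hv
  refine ⟨v, by omega, ?_⟩
  have hA0 : 0 < A.eval v :=
    (Nat.zero_le _).trans_lt (eval_strictMono A hA 0 v (by omega))
  have h1 : A.eval (v + K) * v ^ D ≤ (v + K) ^ D * A.eval v := by
    rw [eval_eq_sum_range, eval_eq_sum_range, Finset.mul_sum, Finset.sum_mul]
    apply Finset.sum_le_sum
    intro i hi
    rw [Finset.mem_range] at hi
    obtain ⟨j, hj⟩ : ∃ j, D = i + j := ⟨D - i, by omega⟩
    rw [hj, pow_add, pow_add]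
    calc A.coeff i * (v + K) ^ i * (v ^ i * v ^ j)
        ≤ A.coeff i * (v + K) ^ i * (v ^ i * (v + K) ^ j) := by gcongr; omega
      _ = (v + K) ^ i * (v + K) ^ j * (A.coeff i * v ^ i) := by ring
  have h2 : (v + K) ^ D < 2 * v ^ D := by
    have hb := bern D v K
    have h3 : (v + K) ^ D = (v + K) ^ (D - 1) * (v + K) := by
      rw [← pow_succ, Nat.sub_add_cancel hA]
    have h4 : 0 < (v + K) ^ (D - 1) := by positivity
    have h5 : 2 * (D * K * (v + K) ^ (D - 1)) < (v + K) ^ D := by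
      rw [h3]
      calc 2 * (D * K * (v + K) ^ (D - 1)) = (v + K) ^ (D - 1) * (2 * D * K) := by ring
        _ < (v + K) ^ (D - 1) * (v + K) := Nat.mul_lt_mul_of_pos_left (by omega) h4
    omega
  have h6 : A.eval (v + K) * v ^ D < (2 * A.eval v) * v ^ D := by
    calc A.eval (v + K) * v ^ D ≤ (v + K) ^ D * A.eval v := h1
      _ < 2 * v ^ D * A.eval v := Nat.mul_lt_mul_of_pos_right h2 hA0
      _ = (2 * A.eval v) * v ^ D := by ring
  exact Nat.lt_of_mul_lt_mul_right h6

/-- Every finite word occurs in `n ↦ T (P n)` for `P` with natural coefficients, degree `≥ 2`. -/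
theorem exists_word (P : ℕ[X]) (hP : 2 ≤ P.natDegree) (k : ℕ) (w : ℕ → ZMod 2) :
    ∃ n : ℕ, ∀ i, i < k → T (P.eval (n + i)) = w i := by
  set d := P.natDegree with hd
  set κ := Nat.log 2 (d - 1) with hκ
  have h1 : 2 ^ κ < d := by
    have := Nat.pow_log_le_self 2 (x := d - 1) (by omega)
    rw [← hκ] at this
    omega
  have h2 : d ≤ 2 ^ (κ + 1) := by
    have := Nat.lt_pow_succ_log_self (b := 2) (by norm_num) (d - 1)
    rw [Nat.succ_eq_add_one, ← hκ] at this
    omega
  set A := der κ P with hA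
  have hAdeg : 1 ≤ A.natDegree := by
    rw [hA]
    unfold der
    rw [smul_eq_C_mul, natDegree_C_mul (M_pos κ 1).ne', natDegree_hasseDeriv]
    omega
  obtain ⟨v, hv1, hv⟩ := window A hAdeg (2 * k)
  have hex : ∀ x, ∃ e m : ℕ, 1 ≤ x → (m % 2 = 1 ∧ A.eval x = 2 ^ e * m) := by
    intro x
    by_cases hx : 1 ≤ x
    · have hne : A.eval x ≠ 0 :=
        ((Nat.zero_le _).trans_lt (eval_strictMono A hAdeg 0 x (by omega))).ne'
      obtain ⟨e, m, hm, he⟩ := Nat.exists_eq_two_pow_mul_odd hne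
      exact ⟨e, m, fun _ => ⟨Nat.odd_iff.mp hm, he⟩⟩
    · exact ⟨0, 0, fun h => absurd h hx⟩
  choose e o heo using hex
  have hmono : ∀ x y, x ≤ y → A.eval x ≤ A.eval y := by
    intro x y hxy
    rcases hxy.eq_or_lt with rfl | h
    · exact le_rfl
    · exact (eval_strictMono A hAdeg x y h).le
  have hne : ∀ x y, v ≤ x → x < y → y < v + 2 * k → o x ≠ o y := by
    intro x y hx hxy hy heq
    have g1 := (heo x (by omega)).2
    have g2 := (heo y (by omega)).2
    have g3 := eval_strictMono A hAdeg x y hxy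
    rw [g1, g2, ← heq] at g3
    have g4 : 2 ^ e x < 2 ^ e y := Nat.lt_of_mul_lt_mul_right g3
    have g5 : e x < e y := (Nat.pow_lt_pow_iff_right (by norm_num)).mp g4
    have g6 : 2 ^ (e x + 1) ≤ 2 ^ e y := Nat.pow_le_pow_right (by norm_num) g5
    have g7 : 2 * A.eval x ≤ A.eval y := by
      rw [g1, g2, ← heq]
      calc 2 * (2 ^ e x * o x) = 2 ^ (e x + 1) * o x := by ring
        _ ≤ 2 ^ e y * o x := Nat.mul_le_mul_right _ g6
    have g8 := hmono v x hx
    have g9 := hmono y (v + 2 * k) hy.le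
    omega
  set W : ℕ → ZMod 2 := fun i => if i < k then w i else w (i - k) + 1 with hW
  obtain ⟨U, hU⟩ := span_lemma κ (Finset.Ico v (v + 2 * k)) o
    (fun x hx => (heo x (by rw [Finset.mem_Ico] at hx; omega)).1)
    (fun x hx y hy hxy => by
      rw [Finset.mem_Ico] at hx hy
      by_contra hcon
      rcases Nat.lt_or_gt_of_ne hcon with h | h
      · exact hne x y hx.1 h hy.2 hxy
      · exact hne y x hy.1 h hx.2 hxy.symm)
    (fun x => W (x - v) - T (P.eval x))
  obtain ⟨h, _, t, ht⟩ := additive P d κ hd.symm h1 h2 U 0 (v + 2 * k)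
  have hmain : ∀ i, i < 2 * k → T (P.eval (v + i + h)) = W i + t := by
    intro i hi
    have hle : v + i ≤ 2 ^ (v + 2 * k) :=
      (by omega : v + i ≤ v + 2 * k).trans Nat.lt_two_pow_self.le
    rw [ht (v + i) hle]
    have e1 : (U.map (fun u => T (u ^ (2 ^ κ) * (der κ P).eval (v + i)))).sum
        = (U.map (fun u => T (u ^ (2 ^ κ) * o (v + i)))).sum := by
      congr 1
      apply List.map_congr_left
      intro u _
      rw [← hA, (heo (v + i) (by omega)).2]
      have : u ^ 2 ^ κ * (2 ^ e (v + i) * o (v + i)) = 2 ^ e (v + i) * (u ^ 2 ^ κ * o (v + i)) := by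
        ring
      rw [this, T_pow_mul]
    rw [e1, hU (v + i) (by rw [Finset.mem_Ico]; omega), Nat.add_sub_cancel_left]
    ring
  have htt : t = 0 ∨ t = 1 := by
    have : ∀ t : ZMod 2, t = 0 ∨ t = 1 := by decide
    exact this t
  rcases htt with rfl | rfl
  · refine ⟨v + h, fun i hi => ?_⟩
    have := hmain i (by omega)
    rw [show v + h + i = v + i + h by ring, this]
    simp [hW, hi]
  · refine ⟨v + h + k, fun i hi => ?_⟩
    have := hmain (k + i) (by omega)
    rw [show v + h + k + i = v + (k + i) + h by ring, this]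
    have h3 : ¬ (k + i < k) := by omega
    simp only [hW, h3, if_false, Nat.add_sub_cancel_left]
    have : (1 : ZMod 2) + 1 = 0 := by decide
    linear_combination this

/-- Quantitative form. -/
theorem count_words (d : ℕ) (hd : 2 ≤ d) : ∃ E : ℕ, ∀ P : ℕ[X], P.natDegree = d →
    ∀ (k : ℕ) (w : ℕ → ZMod 2), ∃ C : ℕ, ∀ B : ℕ,
      ∃ f : ℕ → ℕ, Function.Injective f ∧ ∀ y, y < 2 ^ B →
        f y < 2 ^ (E * B + C) ∧ ∀ i, i < k → T (P.eval (f y + i)) = w i := by
  obtain ⟨E, hE⟩ := copies_lemma d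
  refine ⟨E + 1, fun P hP k w => ?_⟩
  obtain ⟨n, hn⟩ := exists_word P (by omega) k w
  set b := P.eval 1
  refine ⟨E * (b + (n + k) + 1) + n + 1, fun B => ?_⟩
  obtain ⟨H, hH0, hH1, hH2⟩ := hE B b (n + k)
  refine ⟨fun y => n + y * H, ?_, ?_⟩
  · intro y1 y2 h
    simp only at h
    exact Nat.eq_of_mul_eq_mul_right hH0 (by omega)
  · intro y hy
    refine ⟨?_, ?_⟩
    · have g1 : y * H ≤ 2 ^ B * 2 ^ (E * (B + b + (n + k) + 1)) := Nat.mul_le_mul hy.le hH1
      have g2 : n < 2 ^ n := Nat.lt_two_pow_self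
      rw [← pow_add] at g1
      have g3 : 2 ^ (B + E * (B + b + (n + k) + 1))
          ≤ 2 ^ ((E + 1) * B + (E * (b + (n + k) + 1) + n)) := by
        apply Nat.pow_le_pow_right (by norm_num)
        nlinarith
      have g4 : 2 ^ n ≤ 2 ^ ((E + 1) * B + (E * (b + (n + k) + 1) + n)) :=
        Nat.pow_le_pow_right (by norm_num) (by omega)
      have g5 : 2 ^ ((E + 1) * B + (E * (b + (n + k) + 1) + n + 1))
          = 2 * 2 ^ ((E + 1) * B + (E * (b + (n + k) + 1) + n)) := by
        rw [← add_assoc, pow_succ]; ring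
      simp only
      rw [g5]
      omega
    · intro i hi
      have g1 : n + i ≤ 2 ^ (n + k) := (by omega : n + i ≤ n + k).trans Nat.lt_two_pow_self.le
      have g2 := hH2 P hP.le Nat.lt_two_pow_self.le y hy.le (n + i) g1
      simp only
      rw [show n + y * H + i = n + i + y * H by ring, g2, hn i hi]

end Pool.Agent.Lib.MP_8fac0f_nt
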